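import Pool.Agent.Run7.h561.CC.P_CC
import Pool.Agent.Run7.h165.CC.Tight

/-!
# All the clusters of critical bond percolation, in any domain, with any boundary condition

For every open set `D` and for every subsequential scaling limit of the collection of all the open
clusters (as compact sets): almost surely, for all the clusters at once, all the boundaries of
complementary components have Hausdorff dimension exactly `4 / 3` around each of their points in
`D`.
-/

set_option autoImplicit false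
set_option maxHeartbeats 400000

namespace Pool.Agent.Results.MP_35f495_pr.AllClustersAnyDomain

open H974 MeasureTheory TopologicalSpace Filter Topology
open Pool.Agent.TH990.FU (zp)
open Run7.h561.CC (Seq)
open Run7.h165.CC (body)
open scoped ENNReal

/-- `s` is critical percolation in `D` with free boundary condition, on the lattices
`o n + δ n * ℤ²`: the edges which lie in `D` are open or closed with probability `1 / 2`, there are
no other edges. -/
def Free (s : Seq) (D : Set ℂ) : Prop :=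
  ∀ n, (∀ e : Edg, e ∈ s.E n ↔
      segment ℝ (zp (s.δ n) (s.o n) (src e)) (zp (s.δ n) (s.o n) (tgt e)) ⊆ D) ∧
    ∀ F : Finset Edg, s.G n F = (↑F : Set Edg)

/-- For large `n`, `C n F` is the collection of the clusters of all the vertices in `D`. -/
def AllIn (s : Seq) (D : Set ℂ) (C : ℕ → Finset Edg → NonemptyCompacts (NonemptyCompacts ℂ)) :
    Prop :=
  ∀ᶠ n in atTop, ∀ F ⊆ s.E n, ∀ K : NonemptyCompacts ℂ,
    K ∈ C n F ↔ ∃ v : Vtx, zp (s.δ n) (s.o n) v ∈ D ∧
      (K : Set ℂ) = body (s.δ n) (s.o n) (s.G n F) v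

/-- Every nonempty relatively open part, in `U ∩ D`, of the boundary of every component of `U \ K`,
for every open set `U` and every `K ∈ 𝒞` which is not a point, has dimension `4 / 3`. -/
def Dim43 (D : Set ℂ) (𝒞 : NonemptyCompacts (NonemptyCompacts ℂ)) : Prop :=
  ∀ K ∈ 𝒞, (K : Set ℂ).Nontrivial → ∀ U : Set ℂ, IsOpen U → ∀ w : ℂ, ∀ V : Set ℂ, IsOpen V →
    V ⊆ U ∩ D → (frontier (connectedComponentIn (U \ (K : Set ℂ)) w) ∩ V).Nonempty →
      dimH (frontier (connectedComponentIn (U \ (K : Set ℂ)) w) ∩ V) = 4 / 3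

/-- The part in `A ∩ U ∩ D` of these boundaries has dimension at most `dimH A - 2 / 3`. -/
def DimFixed (D A : Set ℂ) (𝒞 : NonemptyCompacts (NonemptyCompacts ℂ)) : Prop :=
  ∀ K ∈ 𝒞, (K : Set ℂ).Nontrivial → ∀ U : Set ℂ, IsOpen U → ∀ w : ℂ,
    dimH (frontier (connectedComponentIn (U \ (K : Set ℂ)) w) ∩ A ∩ (U ∩ D)) ≤
      dimH A - ENNReal.ofReal (2 / 3)

/-- The conclusion: almost surely `Dim43`, and for every `A`, almost surely `DimFixed`. -/
def Concl (D : Set ℂ) (μ : ProbabilityMeasure (NonemptyCompacts (NonemptyCompacts ℂ))) : Prop :=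
  (∀ᵐ 𝒞 : NonemptyCompacts (NonemptyCompacts ℂ)
      ∂(μ : Measure (NonemptyCompacts (NonemptyCompacts ℂ))), Dim43 D 𝒞) ∧
    ∀ A : Set ℂ, ∀ᵐ 𝒞 : NonemptyCompacts (NonemptyCompacts ℂ)
      ∂(μ : Measure (NonemptyCompacts (NonemptyCompacts ℂ))), DimFixed D A 𝒞

theorem free_agree {s : Seq} {D : Set ℂ} (hD : IsOpen D) (h : Free s D) : s.Agree D := by
  intro L hL hc
  obtain ⟨η, hη, hth⟩ := hc.exists_thickening_subset_open hD hL
  filter_upwards [s.lim.eventually (gt_mem_nhds hη)] with n hn e he1 _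
  refine ⟨((h n).1 e).2 ?_, fun F _ => by rw [(h n).2 F]; exact Finset.mem_coe⟩
  intro x hx
  apply hth
  rw [Metric.mem_thickening_iff]
  refine ⟨_, he1, ?_⟩
  have h1 := Run7.h165.CC.seg_far (p := zp (s.δ n) (s.o n) (src e)) hx
  rw [dist_self, dist_comm (zp (s.δ n) (s.o n) (tgt e)), Run7.h165.CC.seg_dist (s.pos n)] at h1
  exact h1.trans_lt (max_lt hη hn)

theorem vert_near {δ : ℝ} (hδ : 0 < δ) (o x : ℂ) : ∃ v : Vtx, dist (zp δ o v) x ≤ 2 * δ := by
  refine ⟨(⌊(x.re - o.re) / δ⌋, ⌊(x.im - o.im) / δ⌋), ?_⟩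
  have h1 := Int.floor_le ((x.re - o.re) / δ)
  have h2 := (Int.lt_floor_add_one ((x.re - o.re) / δ)).le
  have h3 := Int.floor_le ((x.im - o.im) / δ)
  have h4 := (Int.lt_floor_add_one ((x.im - o.im) / δ)).le
  rw [le_div_iff₀ hδ] at h1 h3
  rw [div_le_iff₀ hδ] at h2 h4
  rw [dist_eq_norm]
  refine (Complex.norm_le_abs_re_add_abs_im _).trans ?_
  have h5 : |(zp δ o (⌊(x.re - o.re) / δ⌋, ⌊(x.im - o.im) / δ⌋) - x).re| ≤ δ := by
    rw [Complex.sub_re]
    simp only [zp]
    rw [abs_le]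
    constructor <;> nlinarith
  have h6 : |(zp δ o (⌊(x.re - o.re) / δ⌋, ⌊(x.im - o.im) / δ⌋) - x).im| ≤ δ := by
    rw [Complex.sub_im]
    simp only [zp]
    rw [abs_le]
    constructor <;> nlinarith
  linarith

theorem vert_finite {δ : ℝ} (hδ : 0 < δ) (o : ℂ) {D : Set ℂ} (hb : Bornology.IsBounded D) :
    {v : Vtx | zp δ o v ∈ D}.Finite := by
  obtain ⟨R, hR⟩ := hb.subset_closedBall o
  refine Set.Finite.subset ((Set.finite_Icc (-⌈R / δ⌉) ⌈R / δ⌉).prod
    (Set.finite_Icc (-⌈R / δ⌉) ⌈R / δ⌉)) ?_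
  rintro ⟨x, y⟩ hv
  have h1 := hR hv
  rw [Metric.mem_closedBall, dist_eq_norm] at h1
  have h2 := (Complex.abs_re_le_norm _).trans h1
  have h3 := (Complex.abs_im_le_norm _).trans h1
  have e1 : (zp δ o (x, y) - o).re = δ * x := by simp [zp]
  have e2 : (zp δ o (x, y) - o).im = δ * y := by simp [zp]
  rw [e1, abs_le] at h2
  rw [e2, abs_le] at h3
  have key : ∀ t : ℤ, -R ≤ δ * (t : ℝ) → δ * (t : ℝ) ≤ R → t ∈ Set.Icc (-⌈R / δ⌉) ⌈R / δ⌉ := by
    intro t k1 k2
    have k3 : (t : ℝ) ≤ R / δ := by rw [le_div_iff₀ hδ]; linarith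
    have k4 : -(R / δ) ≤ (t : ℝ) := by
      rw [neg_le, le_div_iff₀ hδ]; linarith
    have k5 := Int.le_ceil (R / δ)
    constructor
    · have : (-(⌈R / δ⌉ : ℤ) : ℝ) ≤ t := by linarith
      exact_mod_cast this
    · have : (t : ℝ) ≤ (⌈R / δ⌉ : ℤ) := by linarith
      exact_mod_cast this
  exact ⟨key x h2.1 h2.2, key y h3.1 h3.2⟩

theorem concl_rule {s : Seq} {D : Set ℂ} (hD : IsOpen D) (hs : s.Agree D) {c0 : ℝ} (hc0 : 0 < c0)
    {C : ℕ → Finset Edg → NonemptyCompacts (NonemptyCompacts ℂ)} (hC : s.Rule c0 C)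
    {φ : ℕ → ℕ} (hφ : StrictMono φ)
    {μ : ProbabilityMeasure (NonemptyCompacts (NonemptyCompacts ℂ))}
    (hμ : Tendsto (fun i => s.law C (φ i)) atTop (𝓝 μ)) : Concl D μ := by
  have h1 := Run7.h165.CC.sub_agree hs hφ
  have h2 := Run7.h165.CC.sub_rule hC hφ
  constructor
  · filter_upwards [Run7.h561.CC.t_CC (Run7.h165.CC.sub s φ hφ) D hD h1 c0 hc0
      (fun i => C (φ i)) h2 μ hμ] with 𝒞 h K hK hnt U hU w V hV hVUD hne
    apply le_antisymm
    · by_contra hcon
      push Not at hcon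
      obtain ⟨x, hx, h3⟩ := exists_mem_nhdsWithin_lt_dimH_of_lt_dimH hcon
      have h4 := h3 (frontier (connectedComponentIn (U \ (K : Set ℂ)) w) ∩
          (U ∩ D ∩ Metric.ball x 1)) (by
        rw [mem_nhdsWithin]
        refine ⟨Metric.ball x 1, Metric.isOpen_ball, Metric.mem_ball_self one_pos, ?_⟩
        rintro y ⟨hy1, hy2, hy3⟩
        exact ⟨hy2, hVUD hy3, hy1⟩)
      rw [h K hK hnt U hU w x hx.1 (hVUD hx.2).1 (hVUD hx.2).2 1 one_pos] at h4
      exact lt_irrefl _ h4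
    · obtain ⟨z, hz1, hz2⟩ := hne
      obtain ⟨ρ, hρ, hb⟩ := Metric.isOpen_iff.1 hV z hz2
      rw [← h K hK hnt U hU w z hz1 (hVUD hz2).1 (hVUD hz2).2 ρ hρ]
      apply dimH_mono
      rintro y ⟨hy1, -, hy3⟩
      exact ⟨hy1, hb hy3⟩
  · intro A
    filter_upwards [Run7.h165.CC.t_UPPA Pool.Agent.W424.KI.u3 (Run7.h165.CC.sub s φ hφ) D hD h1 c0
      hc0 (fun i => C (φ i)) h2 μ hμ A] with 𝒞 h K hK hnt U hU w
    exact h K hK hnt U hU w

theorem shift_tendsto {s : Seq} {C : ℕ → Finset Edg → NonemptyCompacts (NonemptyCompacts ℂ)}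
    {φ : ℕ → ℕ} {μ : ProbabilityMeasure (NonemptyCompacts (NonemptyCompacts ℂ))}
    (hμ : Tendsto (fun i => s.law C (φ i)) atTop (𝓝 μ)) (N : ℕ) :
    Tendsto (fun i => s.law C (φ (i + N))) atTop (𝓝 μ) :=
  hμ.comp (tendsto_add_atTop_nat N)

open Classical in
theorem all_exists {s : Seq} {D : Set ℂ} (hD : IsOpen D) (hb : Bornology.IsBounded D)
    (hne : D.Nonempty) (hs : Free s D) : ∃ C, AllIn s D C := by
  obtain ⟨x, hx⟩ := hne
  obtain ⟨η, hη, hth⟩ := Metric.isOpen_iff.1 hD x hx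
  have key : ∀ n F, ∃ 𝒞 : NonemptyCompacts (NonemptyCompacts ℂ), s.δ n < η / 2 → F ⊆ s.E n →
      ∀ K : NonemptyCompacts ℂ, K ∈ 𝒞 ↔
        ∃ v : Vtx, zp (s.δ n) (s.o n) v ∈ D ∧
          (K : Set ℂ) = body (s.δ n) (s.o n) (s.G n F) v := by
    intro n F
    by_cases hn : s.δ n < η / 2
    · have hG : (s.G n F).Finite := by rw [(hs n).2 F]; exact F.finite_toSet
      set b : Vtx → NonemptyCompacts ℂ := fun v =>
        ⟨⟨body (s.δ n) (s.o n) (s.G n F) v, Run7.h165.CC.body_compact hG v⟩, ⟨_, Or.inl rfl⟩⟩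
        with hbdef
      obtain ⟨v0, hv0⟩ := vert_near (s.pos n) (s.o n) x
      have hV : {v : Vtx | zp (s.δ n) (s.o n) v ∈ D}.Nonempty :=
        ⟨v0, hth (by rw [Metric.mem_ball]; linarith)⟩
      refine ⟨⟨⟨b '' {v : Vtx | zp (s.δ n) (s.o n) v ∈ D},
        ((vert_finite (s.pos n) _ hb).image _).isCompact⟩, hV.image _⟩, fun _ _ K => ?_⟩
      constructor
      · rintro ⟨v, hv, rfl⟩
        exact ⟨v, hv, rfl⟩
      · rintro ⟨v, hv, h⟩
        refine ⟨v, hv, ?_⟩
        apply NonemptyCompacts.ext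
        rw [h]
        rfl
    · exact ⟨⟨⟨{⟨⟨{0}, isCompact_singleton⟩, ⟨0, rfl⟩⟩}, isCompact_singleton⟩, ⟨_, rfl⟩⟩,
        fun h => absurd h hn⟩
  choose C hC using key
  refine ⟨C, ?_⟩
  filter_upwards [s.lim.eventually (gt_mem_nhds (half_pos hη))] with n hn F hF K
  exact hC n F hn hF K

theorem all_concl {s : Seq} {D : Set ℂ} (hD : IsOpen D) (hs : Free s D)
    {C : ℕ → Finset Edg → NonemptyCompacts (NonemptyCompacts ℂ)} (hC : AllIn s D C)
    {φ : ℕ → ℕ} (hφ : StrictMono φ)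
    {μ : ProbabilityMeasure (NonemptyCompacts (NonemptyCompacts ℂ))}
    (hμ : Tendsto (fun i => s.law C (φ i)) atTop (𝓝 μ)) : Concl D μ := by
  obtain ⟨N, hN⟩ := eventually_atTop.1 hC
  have hψ : StrictMono (fun i => i + N) := fun i j h => by simp only; omega
  have hall : Run7.h165.CC.AllCl (Run7.h165.CC.sub s _ hψ)
      (fun n => {v : Vtx | zp (s.δ (n + N)) (s.o (n + N)) v ∈ D}) (fun i => C (i + N)) :=
    fun n F hF K => hN (n + N) (by omega) F hF K
  have hr := Run7.h165.CC.all_rule hall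
  have ha := Run7.h165.CC.sub_agree (free_agree hD hs) hψ
  -- the indices `φ (i + N) - N`
  have hφ2 : StrictMono (fun i => φ (i + N) - N) := by
    intro i j h
    have h1 : φ (i + N) < φ (j + N) := hφ (by omega)
    have h2 : i + N ≤ φ (i + N) := hφ.id_le _
    simp only
    omega
  refine concl_rule hD ha (by norm_num) hr hφ2 (μ := μ) ?_
  have h3 := shift_tendsto hμ N
  refine h3.congr fun i => ?_
  have h2 : i + N ≤ φ (i + N) := hφ.id_le _
  show s.law C (φ (i + N)) = s.law C (φ (i + N) - N + N)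
  rw [Nat.sub_add_cancel (by omega)]

theorem body_in {s : Seq} {D : Set ℂ} (hs : Free s D) {n : ℕ} {F : Finset Edg} (hF : F ⊆ s.E n)
    {v : Vtx} (hv : zp (s.δ n) (s.o n) v ∈ D) :
    body (s.δ n) (s.o n) (s.G n F) v ⊆ D := by
  rintro x (hx | hx)
  · rw [Set.mem_singleton_iff.1 hx]
    exact hv
  · simp only [Set.mem_iUnion] at hx
    obtain ⟨e, ⟨he, -⟩, h2⟩ := hx
    rw [(hs n).2 F] at he
    exact ((hs n).1 e).1 (hF (Finset.mem_coe.1 he)) h2

theorem all_compact {s : Seq} {D : Set ℂ} (hb : Bornology.IsBounded D) (hs : Free s D)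
    {C : ℕ → Finset Edg → NonemptyCompacts (NonemptyCompacts ℂ)} (hC : AllIn s D C)
    {ψ : ℕ → ℕ} (hψ : StrictMono ψ) :
    ∃ (φ : ℕ → ℕ) (μ : ProbabilityMeasure (NonemptyCompacts (NonemptyCompacts ℂ))),
      StrictMono φ ∧ Tendsto (fun i => s.law C (ψ (φ i))) atTop (𝓝 μ) := by
  obtain ⟨N, hN⟩ := eventually_atTop.1 hC
  have h1 : StrictMono (fun i => ψ (i + N)) := fun i j h => hψ (by omega)
  obtain ⟨φ, μ, hφ, hlim⟩ := Run7.h165.CC.rel_compact (s := Run7.h165.CC.sub s _ h1)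
    (C := fun i => C (ψ (i + N))) (B := closure D) hb.isCompact_closure (by
      intro n F hF K hK
      have h2 : n + N ≤ ψ (n + N) := hψ.id_le _
      obtain ⟨v, hv, h3⟩ := (hN (ψ (n + N)) (by omega) F hF K).1 hK
      rw [h3]
      exact (body_in hs hF hv).trans subset_closure)
  exact ⟨fun i => φ i + N, μ, fun i j hij => by have := hφ hij; simp only; omega, hlim⟩

/-- `(1)` Free boundary condition, all the clusters, in every bounded open set `D`: percolation in
`D` and the collection of all clusters exist for all meshes and positions of the lattice; every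
subsequence has a subsequence along which the law of the collection converges; and `Concl` holds for
all subsequential limits. `(2)` For every open set `D`, for every model which is critical
percolation on the compact subsets of `D` (the rest of the configuration is arbitrary, and may
depend on the percolation), for every rule which gives a collection of unions of clusters of
comparable diameters, `Concl` holds for all subsequential limits. -/
theorem result :
    (∀ D : Set ℂ, IsOpen D → Bornology.IsBounded D → D.Nonempty →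
      (∀ (δ : ℕ → ℝ) (o : ℕ → ℂ), (∀ n, 0 < δ n) → Tendsto δ atTop (𝓝 0) →
        ∃ s : Seq, s.δ = δ ∧ s.o = o ∧ Free s D) ∧
      ∀ s : Seq, Free s D → (∃ C, AllIn s D C) ∧ ∀ C, AllIn s D C →
        (∀ ψ : ℕ → ℕ, StrictMono ψ →
          ∃ (φ : ℕ → ℕ) (μ : ProbabilityMeasure (NonemptyCompacts (NonemptyCompacts ℂ))),
            StrictMono φ ∧ Tendsto (fun i => s.law C (ψ (φ i))) atTop (𝓝 μ)) ∧
        ∀ φ : ℕ → ℕ, StrictMono φ →
          ∀ μ : ProbabilityMeasure (NonemptyCompacts (NonemptyCompacts ℂ)),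
            Tendsto (fun i => s.law C (φ i)) atTop (𝓝 μ) → Concl D μ) ∧
    (∀ (s : Seq) (D : Set ℂ), IsOpen D → s.Agree D → ∀ c0 : ℝ, 0 < c0 →
      ∀ C : ℕ → Finset Edg → NonemptyCompacts (NonemptyCompacts ℂ), s.Rule c0 C →
        ∀ φ : ℕ → ℕ, StrictMono φ →
          ∀ μ : ProbabilityMeasure (NonemptyCompacts (NonemptyCompacts ℂ)),
            Tendsto (fun i => s.law C (φ i)) atTop (𝓝 μ) → Concl D μ) := by
  classical
  constructor
  · intro D hD hb hne
    constructor
    · intro δ o hδ hlim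
      have hfin : ∀ n, {e : Edg |
          segment ℝ (zp (δ n) (o n) (src e)) (zp (δ n) (o n) (tgt e)) ⊆ D}.Finite := by
        intro n
        have h1 := vert_finite (hδ n) (o n) hb
        refine Set.Finite.subset (((h1.image Prod.fst).prod ((h1.image Prod.snd).prod
          (Set.toFinite (Set.univ : Set Bool))))) ?_
        rintro ⟨x, y, b⟩ he
        have h2 : zp (δ n) (o n) (x, y) ∈ D := he (left_mem_segment ℝ _ _)
        exact ⟨⟨(x, y), h2, rfl⟩, ⟨(x, y), h2, rfl⟩, trivial⟩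
      exact ⟨⟨δ, o, fun n => (hfin n).toFinset, fun n F => (↑F : Set Edg), hδ, hlim⟩, rfl, rfl,
        fun n => ⟨fun e => (hfin n).mem_toFinset, fun F => rfl⟩⟩
    · intro s hs
      exact ⟨all_exists hD hb hne hs, fun C hC => ⟨fun ψ hψ => all_compact hb hs hC hψ,
        fun φ hφ μ hμ => all_concl hD hs hC hφ hμ⟩⟩
  · intro s D hD hs c0 hc0 C hC φ hφ μ hμ
    exact concl_rule hD hs hc0 hC hφ hμ

end Pool.Agent.Results.MP_35f495_pr.AllClustersAnyDomain
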