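import Mathlib
import Pool.Agent.Run7.h663.PA.Poi

/-!
Critical bond percolation on `ε ℤ²` (`p = 1/2`) in a Jordan domain with `C^(1,α)` boundary: the
probability that an interior vertex is joined to a boundary arc by an open path inside the domain
is, up to multiplicative constants which depend only on the domain, the conformally covariant
expression `(ε / r) ^ (5/48) * ω ^ (1/3)`, where `r` is the conformal radius of the domain seen from
the vertex and `ω` is the harmonic measure of the arc seen from the vertex.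
-/

set_option autoImplicit false

namespace Pool.Agent.Results.MP_35f495_pr.InteriorToArc

open MeasureTheory

/-- The square lattice: two points of `ℤ²` are adjacent when they differ by one in exactly one
coordinate. -/
def Z2 : SimpleGraph (ℤ × ℤ) where
  Adj u v := |u.1 - v.1| + |u.2 - v.2| = 1
  symm := ⟨fun u v h => by rw [abs_sub_comm v.1, abs_sub_comm v.2]; exact h⟩
  loopless := ⟨fun u h => by simp at h⟩

/-- Critical bond percolation: every edge of the square lattice is open (`true`) with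
probability `1/2`, independently of the other edges. -/
noncomputable def crit : Measure (Z2.edgeSet → Bool) :=
  Measure.infinitePi (fun _ => ProbabilityTheory.bernoulliMeasure true false
    ⟨1/2, by norm_num, by norm_num⟩)

/-- The position of the vertex `v` of the lattice `ε ℤ²` in the plane. -/
noncomputable def pos (ε : ℝ) (v : ℤ × ℤ) : ℂ := ⟨ε * v.1, ε * v.2⟩

/-- The graph of the open edges of `ε ℤ²` with both endpoints in `D`. -/
def openGraph (ε : ℝ) (D : Set ℂ) (ω : Z2.edgeSet → Bool) : SimpleGraph (ℤ × ℤ) :=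
  SimpleGraph.fromEdgeSet {e | (∃ h : e ∈ Z2.edgeSet, ω ⟨e, h⟩ = true) ∧ ∀ v ∈ e, pos ε v ∈ D}

/-- The lattice approximation of the boundary arc `A` of `D`: the vertices of `ε ℤ²` in `D` at
distance at most `2 ε` from `A`. -/
def near (ε : ℝ) (D A : Set ℂ) : Set (ℤ × ℤ) :=
  {v | pos ε v ∈ D ∧ ∃ z ∈ A, dist (pos ε v) z ≤ 2 * ε}

/-- The probability that an open path of `ε ℤ²` in `D` joins the vertex `x` to `A`. -/
noncomputable def toArc (ε : ℝ) (D A : Set ℂ) (x : ℤ × ℤ) : ℝ :=
  crit.real {ω | ∃ v ∈ near ε D A, (openGraph ε D ω).Reachable x v}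

/-- The closed unit disc. -/
def disc : Set ℂ := Metric.closedBall 0 1

/-- `f` parametrizes a Jordan domain with `C^(1,α)` boundary, `0 < α ≤ 1`: it is injective and
continuous on the closed unit disc, conformal in the open unit disc, and its derivative extends to a
Hölder continuous function `g` without zeros on the closed unit disc. -/
def Smooth (f : ℂ → ℂ) : Prop :=
  Set.InjOn f disc ∧ ContinuousOn f disc ∧ ∃ (g : ℂ → ℂ) (M α : ℝ), 0 < α ∧ α ≤ 1 ∧
    (∀ z, ‖z‖ < 1 → HasDerivAt f (g z) z) ∧ (∀ z ∈ disc, g z ≠ 0) ∧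
    ∀ z ∈ disc, ∀ w ∈ disc, ‖g z - g w‖ ≤ M * ‖z - w‖ ^ α

/-- The point of the unit circle of argument `θ`. -/
noncomputable def cir (θ : ℝ) : ℂ := Complex.exp (θ * Complex.I)

/-- The boundary arc of the domain `f '' disc` from `f (cir a)` to `f (cir b)`. -/
def arc (f : ℂ → ℂ) (a b : ℝ) : Set ℂ := (fun θ => f (cir θ)) '' Set.Icc a b

/-- The conformal radius of the domain `f '' disc` seen from `f z`. -/
noncomputable def confRad (f : ℂ → ℂ) (z : ℂ) : ℝ := ‖deriv f z‖ * (1 - ‖z‖ ^ 2)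

/-- The harmonic measure of the boundary arc `arc f a b` of the domain `f '' disc` seen from `f z`,
that is, the harmonic measure of the arc `cir '' [a, b]` of the unit circle seen from `z`
(Poisson's formula). -/
noncomputable def harm (z : ℂ) (a b : ℝ) : ℝ :=
  (∫ t in a..b, (1 - ‖z‖ ^ 2) / ‖cir t - z‖ ^ 2) / (2 * Real.pi)

open Y989.SD in
theorem openGraph_adj {f : ℂ → ℂ} {ε : ℝ} (h : ∀ v, v ∈ TD f ε ↔ Y989.SD.pos ε v ∈ f '' Y989.SD.disc)
    (ω : Z2.edgeSet → Bool) (u v : ℤ × ℤ) :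
    (openGraph ε (f '' disc) ω).Adj u v ↔
      H974.Adj (H974.FF (H973.ES (TD f ε)) ω : Set H974.Edg) u v := by
  have hs : ∀ w, pos ε w ∈ f '' disc ↔ w ∈ TD f ε := fun w => (h w).symm
  unfold openGraph
  rw [SimpleGraph.fromEdgeSet_adj]
  constructor
  · rintro ⟨⟨⟨h, hω⟩, hV⟩, hne⟩
    have hadj : (H974.openGraph ω).Adj u v := by
      unfold H974.openGraph
      rw [SimpleGraph.fromEdgeSet_adj]
      exact ⟨⟨h, hω⟩, hne⟩
    obtain ⟨e, he, hcase⟩ := (H974.openGraph_adj ω u v).mp hadj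
    have hu : u ∈ TD f ε := (hs u).mp (hV u (Sym2.mem_mk_left u v))
    have hv : v ∈ TD f ε := (hs v).mp (hV v (Sym2.mem_mk_right u v))
    refine ⟨e, ?_, hcase⟩
    rw [Finset.mem_coe, H974.mem_FF, H973.mem_ES]
    refine ⟨?_, he⟩
    rcases hcase with ⟨h1, h2⟩ | ⟨h1, h2⟩
    · rw [h1, h2]; exact ⟨hu, hv⟩
    · rw [h1, h2]; exact ⟨hv, hu⟩
  · rintro ⟨e, he, hcase⟩
    rw [Finset.mem_coe, H974.mem_FF, H973.mem_ES] at he
    have hadj : (H974.openGraph ω).Adj u v := (H974.openGraph_adj ω u v).mpr ⟨e, he.2, hcase⟩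
    unfold H974.openGraph at hadj
    rw [SimpleGraph.fromEdgeSet_adj] at hadj
    refine ⟨⟨hadj.1, ?_⟩, hadj.2⟩
    intro w hw
    rw [hs]
    rcases Sym2.mem_iff.mp hw with rfl | rfl
    · rcases hcase with ⟨h1, h2⟩ | ⟨h1, h2⟩
      · rw [← h1]; exact he.1.1
      · rw [← h2]; exact he.1.2
    · rcases hcase with ⟨h1, h2⟩ | ⟨h1, h2⟩
      · rw [← h2]; exact he.1.2
      · rw [← h1]; exact he.1.1

theorem toArc_eq {f : ℂ → ℂ} {ε : ℝ}
    (h : ∀ v, v ∈ Y989.SD.TD f ε ↔ Y989.SD.pos ε v ∈ f '' Y989.SD.disc) (a b : ℝ) (x : ℤ × ℤ) :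
    toArc ε (f '' disc) (arc f a b) x =
      H974.Pr Y989.SD.hf (H973.ES (Y989.SD.TD f ε)) (fun F => ∃ w ∈ Y989.SD.near f ε a b,
        H974.Reach (F : Set H974.Edg) x w) := by
  have hnear : near ε (f '' disc) (arc f a b) = Y989.SD.near f ε a b := by
    ext v
    constructor
    · rintro ⟨h1, z, ⟨θ, ⟨h2, h3⟩, rfl⟩, h4⟩
      exact ⟨(h v).mpr h1, θ, h2, h3, by rw [dist_eq_norm] at h4; exact h4⟩
    · rintro ⟨h1, θ, h2, h3, h4⟩
      exact ⟨(h v).mp h1, f (cir θ), ⟨θ, ⟨h2, h3⟩, rfl⟩, by rw [dist_eq_norm]; exact h4⟩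
  have e : toArc ε (f '' disc) (arc f a b) x = (H974.bondLaw H974.hlf).real
      {ω | ∃ v ∈ Y989.SD.near f ε a b, (openGraph ε (f '' disc) ω).Reachable x v} := by
    unfold toArc
    rw [hnear]
    rfl
  rw [e]
  have key : ∀ (ω : Z2.edgeSet → Bool) (u v : ℤ × ℤ), (openGraph ε (f '' disc) ω).Reachable u v ↔
      H974.Reach (H974.FF (H973.ES (Y989.SD.TD f ε)) ω : Set H974.Edg) u v := by
    intro ω u v
    rw [SimpleGraph.reachable_iff_reflTransGen]
    have : (openGraph ε (f '' disc) ω).Adj =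
        H974.Adj (H974.FF (H973.ES (Y989.SD.TD f ε)) ω : Set H974.Edg) := by
      funext u v
      exact propext (openGraph_adj h ω u v)
    rw [this]
    rfl
  have e2 : {ω : Z2.edgeSet → Bool | ∃ v ∈ Y989.SD.near f ε a b,
        (openGraph ε (f '' disc) ω).Reachable x v} =
      {ω | (fun F : Finset H974.Edg => ∃ w ∈ Y989.SD.near f ε a b,
        H974.Reach (F : Set H974.Edg) x w) (H974.FF (H973.ES (Y989.SD.TD f ε)) ω)} := by
    ext ω
    constructor
    · rintro ⟨v, hv, hr⟩
      exact ⟨v, hv, (key ω x v).mp hr⟩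
    · rintro ⟨v, hv, hr⟩
      exact ⟨v, hv, (key ω x v).mpr hr⟩
  have h6 := H974.law_event H974.hlf (H973.ES (Y989.SD.TD f ε))
    (fun F : Finset H974.Edg => ∃ w ∈ Y989.SD.near f ε a b, H974.Reach (F : Set H974.Edg) x w)
  exact (congrArg (fun s => (H974.bondLaw H974.hlf).real s) e2).trans h6

/-- **The probability that an interior point is connected to a boundary arc, in `C^(1,α)` Jordan
domains.** Let `f` be a parametrization of a Jordan domain `D = f '' disc` with `C^(1,α)` boundary.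
There are constants `c, C, K > 0` such that for every mesh `ε`, every vertex `x` of `ε ℤ²` in the
interior of `D` at which the conformal radius `r` of `D` is at least `K ε`, and every boundary arc
of angular length at least `ε` (up to the whole boundary), the probability that critical bond
percolation on `ε ℤ²` contains an open path in `D` from `x` to the arc is between `c F` and `C F`,
where `F = (ε / r) ^ (5/48) * ω ^ (1/3)` and `ω` is the harmonic measure of the arc seen from
`x`. -/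
theorem result (f : ℂ → ℂ) (hf : Smooth f) : ∃ c C K : ℝ, 0 < c ∧ 0 < C ∧ 0 < K ∧
    ∀ (ε : ℝ) (x : ℤ × ℤ) (z : ℂ) (a b : ℝ), 0 < ε → ‖z‖ < 1 → f z = pos ε x →
      K * ε ≤ confRad f z → ε ≤ b - a → b ≤ a + 2 * Real.pi →
      c * ((ε / confRad f z) ^ (5 / 48 : ℝ) * harm z a b ^ (1 / 3 : ℝ)) ≤
        toArc ε (f '' disc) (arc f a b) x ∧
      toArc ε (f '' disc) (arc f a b) x ≤
        C * ((ε / confRad f z) ^ (5 / 48 : ℝ) * harm z a b ^ (1 / 3 : ℝ)) := by
  obtain ⟨hi, hc, g, M, α, ha0, ha1, hd, hn, hg⟩ := hf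
  have hW : Y989.SD.SmW f g M α := Y989.SD.smW_of ha0 ha1 hi hc hd hn hg
  obtain ⟨c, C, K, hc0, hC0, hK0, h⟩ := Run7.h663.PA.main_arc hW
  refine ⟨c, C, K, hc0, hC0, hK0, ?_⟩
  intro ε x z a b hε hz hfz hK hab hb
  have hrad : confRad f z = ‖g z‖ * (1 - ‖z‖ ^ 2) := by
    unfold confRad
    rw [(hd z hz).deriv]
  rw [hrad] at hK ⊢
  obtain ⟨h1, h2, h3⟩ := h ε x z a b hε hz hfz hK hab hb
  rw [toArc_eq h1]
  exact ⟨h2, h3⟩

end Pool.Agent.Results.MP_35f495_pr.InteriorToArc
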