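import Mathlib
import Pool.Agent.Run7.h663.PA.TwoMain

/-!
Critical bond percolation on `ε ℤ²` (`p = 1/2`) in a Jordan domain with `C^(1,α)` boundary: the
probability that two interior vertices are joined by an open path inside the domain is, up to
multiplicative constants which depend only on the domain, the conformally covariant expression
`(ε / r) ^ (5/48) * (ε / s) ^ (5/48) * q ^ (-5/24) * (1 - q²) ^ (1/3)`, where `r`, `s` are the
conformal radii of the domain seen from the two vertices and `q` is their pseudo-hyperbolic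
distance in the domain.
-/

set_option autoImplicit false

namespace Pool.Agent.Results.MP_35f495_pr.TwoPointSmooth

open MeasureTheory

/-- The square lattice: two points of `ℤ²` are adjacent when they differ by one in exactly one
coordinate. -/
def Z2 : SimpleGraph (ℤ × ℤ) where
  Adj u v := |u.1 - v.1| + |u.2 - v.2| = 1
  symm := ⟨fun u v h => by rw [abs_sub_comm v.1, abs_sub_comm v.2]; exact h⟩
  loopless := ⟨fun u h => by simp at h⟩

/-- Critical bond percolation: every edge of the square lattice is open (`true`) with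
probability `1/2`, independently of the other edges. -/
noncomputable def crit : Measure (Z2.edgeSet → Bool) :=
  Measure.infinitePi (fun _ => ProbabilityTheory.bernoulliMeasure true false
    ⟨1/2, by norm_num, by norm_num⟩)

/-- The position of the vertex `v` of the lattice `ε ℤ²` in the plane. -/
noncomputable def pos (ε : ℝ) (v : ℤ × ℤ) : ℂ := ⟨ε * v.1, ε * v.2⟩

/-- The graph of the open edges of `ε ℤ²` with both endpoints in `D`. -/
def openGraph (ε : ℝ) (D : Set ℂ) (ω : Z2.edgeSet → Bool) : SimpleGraph (ℤ × ℤ) :=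
  SimpleGraph.fromEdgeSet {e | (∃ h : e ∈ Z2.edgeSet, ω ⟨e, h⟩ = true) ∧ ∀ v ∈ e, pos ε v ∈ D}

/-- The two-point function of the domain `D`: the probability that an open path of `ε ℤ²` in `D`
joins the vertices `x` and `y`. -/
noncomputable def twoPoint (ε : ℝ) (D : Set ℂ) (x y : ℤ × ℤ) : ℝ :=
  crit.real {ω | (openGraph ε D ω).Reachable x y}

/-- The closed unit disc. -/
def disc : Set ℂ := Metric.closedBall 0 1

/-- `f` parametrizes a Jordan domain with `C^(1,α)` boundary, `0 < α ≤ 1`: it is injective and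
continuous on the closed unit disc, conformal in the open unit disc, and its derivative extends to a
Hölder continuous function `g` without zeros on the closed unit disc. -/
def Smooth (f : ℂ → ℂ) : Prop :=
  Set.InjOn f disc ∧ ContinuousOn f disc ∧ ∃ (g : ℂ → ℂ) (M α : ℝ), 0 < α ∧ α ≤ 1 ∧
    (∀ z, ‖z‖ < 1 → HasDerivAt f (g z) z) ∧ (∀ z ∈ disc, g z ≠ 0) ∧
    ∀ z ∈ disc, ∀ w ∈ disc, ‖g z - g w‖ ≤ M * ‖z - w‖ ^ α

/-- The conformal radius of the domain `f '' disc` seen from `f z`. -/
noncomputable def confRad (f : ℂ → ℂ) (z : ℂ) : ℝ := ‖deriv f z‖ * (1 - ‖z‖ ^ 2)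

/-- The pseudo-hyperbolic distance of two points of the unit disc, that is, of the points `f z` and
`f w` of the domain `f '' disc`. It is `tanh (ρ / 2)`, where `ρ` is the hyperbolic distance. -/
noncomputable def pseudo (z w : ℂ) : ℝ := ‖z - w‖ / ‖1 - (starRingEnd ℂ) z * w‖

/-- The conformally covariant two-point function, in terms of the conformal radii `r`, `s` and of
the pseudo-hyperbolic distance `q`. -/
noncomputable def cov (ε r s q : ℝ) : ℝ :=
  (ε / r) ^ (5 / 48 : ℝ) * (ε / s) ^ (5 / 48 : ℝ) *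
    (q ^ (-(5 / 24 : ℝ)) * (1 - q ^ 2) ^ (1 / 3 : ℝ))

open Y989.SD in
theorem openGraph_adj {f : ℂ → ℂ} {ε : ℝ} (h : ∀ v, v ∈ TD f ε ↔ Y989.SD.pos ε v ∈ f '' Y989.SD.disc)
    (ω : Z2.edgeSet → Bool) (u v : ℤ × ℤ) :
    (openGraph ε (f '' disc) ω).Adj u v ↔
      H974.Adj (H974.FF (H973.ES (TD f ε)) ω : Set H974.Edg) u v := by
  have hs : ∀ w, pos ε w ∈ f '' disc ↔ w ∈ TD f ε := fun w => (h w).symm
  unfold openGraph
  rw [SimpleGraph.fromEdgeSet_adj]
  constructor
  · rintro ⟨⟨⟨h, hω⟩, hV⟩, hne⟩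
    have hadj : (H974.openGraph ω).Adj u v := by
      unfold H974.openGraph
      rw [SimpleGraph.fromEdgeSet_adj]
      exact ⟨⟨h, hω⟩, hne⟩
    obtain ⟨e, he, hcase⟩ := (H974.openGraph_adj ω u v).mp hadj
    have hu : u ∈ TD f ε := (hs u).mp (hV u (Sym2.mem_mk_left u v))
    have hv : v ∈ TD f ε := (hs v).mp (hV v (Sym2.mem_mk_right u v))
    refine ⟨e, ?_, hcase⟩
    rw [Finset.mem_coe, H974.mem_FF, H973.mem_ES]
    refine ⟨?_, he⟩
    rcases hcase with ⟨h1, h2⟩ | ⟨h1, h2⟩
    · rw [h1, h2]; exact ⟨hu, hv⟩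
    · rw [h1, h2]; exact ⟨hv, hu⟩
  · rintro ⟨e, he, hcase⟩
    rw [Finset.mem_coe, H974.mem_FF, H973.mem_ES] at he
    have hadj : (H974.openGraph ω).Adj u v := (H974.openGraph_adj ω u v).mpr ⟨e, he.2, hcase⟩
    unfold H974.openGraph at hadj
    rw [SimpleGraph.fromEdgeSet_adj] at hadj
    refine ⟨⟨hadj.1, ?_⟩, hadj.2⟩
    intro w hw
    rw [hs]
    rcases Sym2.mem_iff.mp hw with rfl | rfl
    · rcases hcase with ⟨h1, h2⟩ | ⟨h1, h2⟩
      · rw [← h1]; exact he.1.1
      · rw [← h2]; exact he.1.2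
    · rcases hcase with ⟨h1, h2⟩ | ⟨h1, h2⟩
      · rw [← h2]; exact he.1.2
      · rw [← h1]; exact he.1.1

theorem twoPoint_eq {f : ℂ → ℂ} {ε : ℝ}
    (h : ∀ v, v ∈ Y989.SD.TD f ε ↔ Y989.SD.pos ε v ∈ f '' Y989.SD.disc) (x y : ℤ × ℤ) :
    twoPoint ε (f '' disc) x y = Run7.h663.PA.PP f ε x y := by
  have e : twoPoint ε (f '' disc) x y = (H974.bondLaw H974.hlf).real
      {ω | (openGraph ε (f '' disc) ω).Reachable x y} := rfl
  rw [e]
  have key : ∀ (ω : Z2.edgeSet → Bool) (u v : ℤ × ℤ), (openGraph ε (f '' disc) ω).Reachable u v ↔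
      H974.Reach (H974.FF (H973.ES (Y989.SD.TD f ε)) ω : Set H974.Edg) u v := by
    intro ω u v
    rw [SimpleGraph.reachable_iff_reflTransGen]
    have : (openGraph ε (f '' disc) ω).Adj =
        H974.Adj (H974.FF (H973.ES (Y989.SD.TD f ε)) ω : Set H974.Edg) := by
      funext u v
      exact propext (openGraph_adj h ω u v)
    rw [this]
    rfl
  have e2 : {ω : Z2.edgeSet → Bool | (openGraph ε (f '' disc) ω).Reachable x y} =
      {ω | (fun F : Finset H974.Edg => H974.Reach (F : Set H974.Edg) x y)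
        (H974.FF (H973.ES (Y989.SD.TD f ε)) ω)} := by
    ext ω
    exact key ω x y
  have h6 := H974.law_event H974.hlf (H973.ES (Y989.SD.TD f ε))
    (fun F : Finset H974.Edg => H974.Reach (F : Set H974.Edg) x y)
  exact (congrArg (fun s => (H974.bondLaw H974.hlf).real s) e2).trans h6

/-- **The two-point function in `C^(1,α)` Jordan domains is conformally covariant up to
constants.** Let `f` be a parametrization of a Jordan domain `D = f '' disc` with `C^(1,α)`
boundary. There are constants `c, C, K > 0` such that for every mesh `ε` and all distinct vertices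
`x`, `y` of `ε ℤ²` in the interior of `D` at which the conformal radii `r`, `s` of `D` are at least
`K ε`, the probability that critical bond percolation on `ε ℤ²` contains an open path in `D` from
`x` to `y` is between `c F` and `C F`, where
`F = (ε / r) ^ (5/48) * (ε / s) ^ (5/48) * q ^ (-5/24) * (1 - q²) ^ (1/3)` and `q` is the
pseudo-hyperbolic distance of `x` and `y` in `D`. -/
theorem result (f : ℂ → ℂ) (hf : Smooth f) : ∃ c C K : ℝ, 0 < c ∧ 0 < C ∧ 0 < K ∧
    ∀ (ε : ℝ) (x y : ℤ × ℤ) (z w : ℂ), 0 < ε → ‖z‖ < 1 → ‖w‖ < 1 → f z = pos ε x →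
      f w = pos ε y → x ≠ y → K * ε ≤ confRad f z → K * ε ≤ confRad f w →
      c * cov ε (confRad f z) (confRad f w) (pseudo z w) ≤ twoPoint ε (f '' disc) x y ∧
      twoPoint ε (f '' disc) x y ≤ C * cov ε (confRad f z) (confRad f w) (pseudo z w) := by
  obtain ⟨hi, hc, g, M, α, ha0, ha1, hd, hn, hg⟩ := hf
  have hW : Y989.SD.SmW f g M α := Y989.SD.smW_of ha0 ha1 hi hc hd hn hg
  obtain ⟨c, C, K, hc0, hC0, hK0, h⟩ := Run7.h663.PA.main_two hW
  refine ⟨c, C, K, hc0, hC0, hK0, ?_⟩
  intro ε x y z w hε hz hw hfz hfw hxy hKz hKw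
  have hr : confRad f z = ‖g z‖ * (1 - ‖z‖ ^ 2) := by
    unfold confRad
    rw [(hd z hz).deriv]
  have hs : confRad f w = ‖g w‖ * (1 - ‖w‖ ^ 2) := by
    unfold confRad
    rw [(hd w hw).deriv]
  rw [hr] at hKz ⊢
  rw [hs] at hKw ⊢
  obtain ⟨h1, h2, h3⟩ := h ε x y z w hε hz hw hfz hfw hxy hKz hKw
  rw [twoPoint_eq h1]
  exact ⟨h2, h3⟩

end Pool.Agent.Results.MP_35f495_pr.TwoPointSmooth
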