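import Pool.Agent.Run7.h729.Iso.Fx4

/-!
# The winding exponents of critical bond percolation on the square lattice

Critical bond percolation (`p = 1/2`) on the universal cover of a cylinder of odd circumference
`N = 2n+1`, in rotated coordinates: the corners `(x, y)` of the unit squares (tiles) with `x + y` even
are the vertices of the lattice, the corners with `x + y` odd those of the dual lattice (across a seam
the two lattices are exchanged), and in every tile exactly one diagonal is open, with probability `1/2`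
each, independently.  There are `M` rows of tiles.  At the bottom the arcs `[kN, kN + 2n]` are wired.

The cluster of the arc `[0, 2n]` crosses the cylinder; at the top it occupies the corners from `left`
to `left + 2n`.  Its winding is `wnd = 2π left / N`, and `height = 2π M / N` is the height of the
cylinder in units in which the circumference is `2π`: conformally the cylinder is an annulus whose
radii have the ratio `exp height`, and `wnd` is the angle by which the crossing turns.

The theorem: for all small real `a` the characteristic function `E exp(i a wnd)` is, at the natural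
scale, `A exp(-β height)` up to an error which is exponentially smaller; the amplitude `A` tends to one
as `a → 0`, and the exponent `β` is `3 a²` up to an error which vanishes as the mesh tends to zero
(explicit rates, uniform in the height).  So the winding exponents `-log |E exp(i a wnd)| / height`
have the scaling limit `3 a²`: the value of radial `SLE_6` (Coulomb gas), where the winding is a
Brownian motion with the variance `6 · height`.
-/

set_option autoImplicit false

namespace Pool.Agent.Results.MP_35f495_pr.WindingExponents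

open Filter Topology

/-- configurations of `M` rows of the cylinder of circumference `2n+1`: the state of the tile `(j,t)`
(the unit square with lower left corner `(j,t)`) is `c t (j mod 2n+1)` -/
abbrev Conf (n M : ℕ) : Type := Fin M → Fin (2 * n + 1) → Bool

/-- adjacency of the corners in the strip of `M` rows of the universal cover: the open diagonal of the
tile `(j,t)` is `(j,t) - (j+1,t+1)` in the state `false` and `(j+1,t) - (j,t+1)` in the state
`true`; and at the bottom, in every period, the corners `2i` and `2i+2`, `i < n`, are joined -/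
def Adj (n M : ℕ) (c : Conf n M) (x y : ℤ × ℤ) : Prop :=
  (∃ (j : ℤ) (t : Fin M),
    (c t (H906K.jx (2 * n) j) = false ∧ x = (j, (t : ℤ)) ∧ y = (j + 1, (t : ℤ) + 1)) ∨
    (c t (H906K.jx (2 * n) j) = true ∧ x = (j + 1, (t : ℤ)) ∧ y = (j, (t : ℤ) + 1))) ∨
  ∃ (k : ℤ) (i : ℕ), i < n ∧ x = (k * (2 * n + 1) + 2 * i, 0) ∧
    y = (k * (2 * n + 1) + 2 * i + 2, 0)

/-- the corners `x`, `y` are joined by an open path -/
def Conn (n M : ℕ) (c : Conf n M) (x y : ℤ × ℤ) : Prop := Relation.EqvGen (Adj n M c) x y

/-- the leftmost corner at the top which is connected to the arc `[0, 2n]` of the bottom -/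
noncomputable def left (n M : ℕ) (c : Conf n M) : ℤ :=
  sInf {p : ℤ | Conn n M c (0, 0) (p, (M : ℤ))}

/-- the winding of the crossing, in units in which the circumference is `2π` -/
noncomputable def wnd {n M : ℕ} (c : Conf n M) : ℝ := 2 * Real.pi * left n M c / (2 * n + 1)

/-- the height of `M` rows, in units in which the circumference is `2π` -/
noncomputable def height (n M : ℕ) : ℝ := 2 * Real.pi * M / (2 * n + 1)

/-- the characteristic function of the winding: the mean value of `exp (i a wnd)` over the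
`2^((2n+1)M)` configurations (independent tiles, `p = 1/2`) -/
noncomputable def chf (n M : ℕ) (a : ℝ) : ℂ :=
  (∑ c : Conf n M, Complex.exp (((a * wnd c : ℝ) : ℂ) * Complex.I)) / 2 ^ ((2 * n + 1) * M)

theorem chf_eq {n : ℕ} (hn : 1 ≤ n) (M : ℕ) (a : ℝ) :
    chf n M a = H729I.EE (H729I.hom n) M (fun c =>
      Complex.exp (((a * (2 * Real.pi / (2 * n + 1) * H729I.dis c) : ℝ) : ℂ) * Complex.I)) := by
  unfold chf H729I.EE
  rw [Finset.sum_div]
  refine Finset.sum_congr rfl fun c _ => ?_
  have h1 : H729I.wgt (H729I.hom n) M c = ((1 / 2 : ℝ) ^ (2 * n + 1)) ^ M := by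
    unfold H729I.wgt H729I.hom
    simp only [H729I.rw1_half, Finset.prod_const, Finset.card_univ, Fintype.card_fin]
  have h2 : a * wnd c = a * (2 * Real.pi / (2 * n + 1) * H729I.dis c) := by
    have h3 : H729I.dis c = (left n M c : ℝ) := H729I.dis_left hn c
    rw [h3]
    unfold wnd
    ring
  rw [h1, h2, Complex.real_smul, ← pow_mul, one_div, inv_pow]
  push_cast
  field_simp

theorem result :
    (∀ (n M : ℕ) (c : Conf n M), 1 ≤ n →
      Conn n M c (0, 0) (left n M c, M) ∧ Conn n M c (0, 0) (left n M c + 2 * n, M) ∧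
      ∀ p : ℤ, Conn n M c (0, 0) (p, M) → left n M c ≤ p ∧ p ≤ left n M c + 2 * n) ∧
    (∃ ρ C δ : ℝ, 0 < ρ ∧ 0 < δ ∧ ∀ n : ℕ, 1 ≤ n → ∀ a : ℝ, |a| ≤ ρ → ∃ A β : ℂ,
      ‖A - 1‖ ≤ C * √|a| ∧ ‖β - 3 * a ^ 2‖ ≤ C * (|a| / (2 * n + 1) ^ 2 + a ^ 2 / (2 * n + 1)) ∧
      ∀ M : ℕ, ‖chf n M a - A * Complex.exp (-β * (height n M : ℝ))‖
        ≤ C * Real.exp (-δ * height n M)) ∧
    ∃ ρ : ℝ, 0 < ρ ∧ ∀ a : ℝ, |a| ≤ ρ → ∀ ε : ℝ, 0 < ε → ∃ n₀ : ℕ, ∃ T₀ : ℝ, ∀ n M : ℕ,
      n₀ ≤ n → T₀ ≤ height n M →
        Real.exp (-(3 * a ^ 2 + ε) * height n M) ≤ ‖chf n M a‖ ∧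
        ‖chf n M a‖ ≤ Real.exp (-(3 * a ^ 2 - ε) * height n M) := by
  refine ⟨?_, ?_, ?_⟩
  · intro n M c hn
    have hL : left n M c = Y994.KW.X n M c := Y994.KW.Lft_eq Y994.KW.All.CRS n M c hn
    obtain ⟨h1, h2, h3⟩ := Y994.KW.All.CRS n M c hn
    rw [hL]
    exact ⟨h1, h2, h3⟩
  · obtain ⟨ρ, C, δ, hρ, -, hδ, h⟩ := H729I.wind_fixed
    refine ⟨ρ, C, δ, hρ, hδ, fun n hn a ha => ?_⟩
    obtain ⟨A, β, h1, h2, h3⟩ := h n hn a ha
    refine ⟨A, β, h1, h2, fun M => ?_⟩
    rw [chf_eq hn]
    exact h3 M
  · obtain ⟨ρ, hρ, h⟩ := H729I.wind_exp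
    refine ⟨ρ, hρ, fun a ha ε hε => ?_⟩
    obtain ⟨n₀, T₀, h1⟩ := h a ha ε hε
    refine ⟨max n₀ 1, T₀, fun n M hn hT => ?_⟩
    rw [chf_eq ((le_max_right _ _).trans hn)]
    exact h1 n M ((le_max_left _ _).trans hn) hT

end Pool.Agent.Results.MP_35f495_pr.WindingExponents
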